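import Mathlib

set_option autoImplicit false

namespace Pool.Agent.Helper45.Vu

open Finset

variable {V ι : Type*} [DecidableEq ι] [Fintype ι]

/-- Independent transversals of the parts `P i`, `i ∈ S` (value `v0` outside `S`). -/
noncomputable def IT (G : SimpleGraph V) (P : ι → Finset V) (v0 : V) (S : Finset ι) :
    Finset (ι → V) := by
  classical
  exact (Fintype.piFinset (fun i => if i ∈ S then P i else {v0})).filter
    (fun f => ∀ i ∈ S, ∀ j ∈ S, i ≠ j → ¬ G.Adj (f i) (f j))

lemma mem_IT {G : SimpleGraph V} {P : ι → Finset V} {v0 : V} {S : Finset ι} {f : ι → V} :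
    f ∈ IT G P v0 S ↔ (∀ i ∈ S, f i ∈ P i) ∧ (∀ i, i ∉ S → f i = v0) ∧
      (∀ i ∈ S, ∀ j ∈ S, i ≠ j → ¬ G.Adj (f i) (f j)) := by
  classical
  unfold IT
  simp only [mem_filter, Fintype.mem_piFinset]
  constructor
  · rintro ⟨h1, h2⟩
    refine ⟨fun i hi => ?_, fun i hi => ?_, h2⟩
    · have := h1 i; simpa [hi] using this
    · have := h1 i; simpa [hi] using this
  · rintro ⟨h1, h2, h3⟩
    refine ⟨fun i => ?_, h3⟩
    by_cases hi : i ∈ S
    · simpa [hi] using h1 i hi
    · simpa [hi] using h2 i hi

lemma IT_empty_card (G : SimpleGraph V) (P : ι → Finset V) (v0 : V) :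
    0 < (IT G P v0 (∅ : Finset ι)).card := by
  classical
  refine card_pos.mpr ⟨fun _ => v0, ?_⟩
  rw [mem_IT]
  simp

/-- transversals through a given vertex `y` of part `j` -/
lemma card_through_le [DecidableEq V] (G : SimpleGraph V) (P : ι → Finset V) (v0 : V) (S : Finset ι) (j : ι)
    (y : V) :
    ((IT G P v0 S).filter (fun f => f j = y)).card ≤ (IT G P v0 (S.erase j)).card := by
  classical
  refine Finset.card_le_card_of_injOn (fun f => Function.update f j v0) ?_ ?_
  · intro f hf
    have hf' := (mem_filter.mp hf).1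
    rw [mem_IT] at hf'
    obtain ⟨h1, h2, h3⟩ := hf'
    rw [mem_coe, mem_IT]
    beta_reduce
    refine ⟨fun i hi => ?_, fun i hi => ?_, fun i hi k hk hik => ?_⟩
    · obtain ⟨hij, hiS⟩ := mem_erase.mp hi
      rw [Function.update_of_ne hij]
      exact h1 i hiS
    · by_cases hij : i = j
      · subst hij; simp
      · rw [Function.update_of_ne hij]
        exact h2 i (fun hiS => hi (mem_erase.mpr ⟨hij, hiS⟩))
    · obtain ⟨hij, hiS⟩ := mem_erase.mp hi
      obtain ⟨hkj, hkS⟩ := mem_erase.mp hk
      rw [Function.update_of_ne hij, Function.update_of_ne hkj]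
      exact h3 i hiS k hkS hik
  · intro f hf g hg hfg
    have hf' := (mem_filter.mp hf).2
    have hg' := (mem_filter.mp hg).2
    funext i
    by_cases hij : i = j
    · subst hij; rw [hf', hg']
    · have := congrFun hfg i
      simpa [Function.update_of_ne hij] using this

/-- The counting step of Rosenfeld type. -/
theorem IT_step [DecidableEq V] (G : SimpleGraph V) [DecidableRel G.Adj] (P : ι → Finset V) (v0 : V) (D : ℕ)
    (hD : 0 < D) (S0 : Finset ι)
    (hP : ∀ i ∈ S0, 4 * D ≤ (P i).card)
    (hdeg : ∀ i ∈ S0, ∀ x ∈ P i, ∑ j ∈ S0.erase i, ((P j).filter (fun y => G.Adj x y)).card ≤ D) :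
    ∀ n : ℕ, ∀ S : Finset ι, S ⊆ S0 → S.card = n → ∀ i ∈ S0, i ∉ S →
      (P i).card * (IT G P v0 S).card ≤ 2 * (IT G P v0 (insert i S)).card := by
  classical
  intro n
  induction n using Nat.strong_induction_on with
  | _ n ih =>
  intro S hSS hS i hi0 hi
  -- pairs
  set A := (P i) ×ˢ (IT G P v0 S) with hA
  set bad := A.filter (fun p => ∃ j ∈ S, G.Adj p.1 (p.2 j)) with hbad
  have hAcard : A.card = (P i).card * (IT G P v0 S).card := card_product _ _
  -- good pairs inject
  have hgood : (A \ bad).card ≤ (IT G P v0 (insert i S)).card := by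
    refine Finset.card_le_card_of_injOn (fun p => Function.update p.2 i p.1) ?_ ?_
    · rintro ⟨x, f⟩ hp
      have hp1 := (mem_sdiff.mp hp).1
      have hp2 := (mem_sdiff.mp hp).2
      obtain ⟨hx, hf⟩ := mem_product.mp hp1
      have hnb : ∀ j ∈ S, ¬ G.Adj x (f j) := by
        intro j hj hadj
        exact hp2 (mem_filter.mpr ⟨hp1, j, hj, hadj⟩)
      have hf0 := mem_IT.mp hf
      obtain ⟨h1, h2, h3⟩ := hf0
      rw [mem_coe, mem_IT]
      refine ⟨fun k hk => ?_, fun k hk => ?_, fun k hk l hl hkl => ?_⟩
      · by_cases hki : k = i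
        · subst hki; simpa using hx
        · simp only [Function.update_of_ne hki]
          exact h1 k ((mem_insert.mp hk).resolve_left hki)
      · have hki : k ≠ i := fun h => hk (mem_insert.mpr (Or.inl h))
        simp only [Function.update_of_ne hki]
        exact h2 k (fun h => hk (mem_insert.mpr (Or.inr h)))
      · by_cases hki : k = i
        · subst hki
          have hlk : l ≠ k := fun h => hkl h.symm
          simp only [Function.update_self, Function.update_of_ne hlk]
          exact hnb l ((mem_insert.mp hl).resolve_left hlk)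
        · by_cases hli : l = i
          · subst hli
            simp only [Function.update_self, Function.update_of_ne hki]
            intro h
            exact hnb k ((mem_insert.mp hk).resolve_left hki) h.symm
          · simp only [Function.update_of_ne hki, Function.update_of_ne hli]
            exact h3 k ((mem_insert.mp hk).resolve_left hki) l
              ((mem_insert.mp hl).resolve_left hli) hkl
    · rintro ⟨x, f⟩ hp ⟨y, g⟩ hq hpq
      have hp1 := (mem_product.mp (mem_sdiff.mp hp).1).2
      have hq1 := (mem_product.mp (mem_sdiff.mp hq).1).2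
      obtain ⟨_, hf2, _⟩ := mem_IT.mp hp1
      obtain ⟨_, hg2, _⟩ := mem_IT.mp hq1
      have hxy : x = y := by
        have := congrFun hpq i
        simpa using this
      have hfg : f = g := by
        funext k
        by_cases hki : k = i
        · subst hki
          exact (hf2 k hi).trans (hg2 k hi).symm
        · have := congrFun hpq k
          simpa [Function.update_of_ne hki] using this
      rw [hxy, hfg]
  -- the number of bad pairs
  have hbadle : bad.card ≤ ∑ j ∈ S, (∑ x ∈ P i, ((P j).filter (fun y => G.Adj x y)).card) *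
      (IT G P v0 (S.erase j)).card := by
    have hsub : bad ⊆ S.biUnion (fun j => ((P i ×ˢ P j).filter (fun q => G.Adj q.1 q.2)).biUnion
        (fun q => ((IT G P v0 S).filter (fun f => f j = q.2)).image (fun f => (q.1, f)))) := by
      rintro ⟨x, f⟩ hp
      obtain ⟨hp1, j, hj, hadj⟩ := mem_filter.mp hp
      obtain ⟨hx, hf⟩ := mem_product.mp hp1
      obtain ⟨h1, _, _⟩ := mem_IT.mp hf
      refine mem_biUnion.mpr ⟨j, hj, mem_biUnion.mpr ⟨(x, f j), ?_, ?_⟩⟩
      · exact mem_filter.mpr ⟨mem_product.mpr ⟨hx, h1 j hj⟩, hadj⟩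
      · exact mem_image.mpr ⟨f, mem_filter.mpr ⟨hf, rfl⟩, rfl⟩
    refine (card_le_card hsub).trans (card_biUnion_le.trans (sum_le_sum fun j hj => ?_))
    refine card_biUnion_le.trans ?_
    calc ∑ q ∈ (P i ×ˢ P j).filter (fun q => G.Adj q.1 q.2),
          (((IT G P v0 S).filter (fun f => f j = q.2)).image (fun f => (q.1, f))).card
        ≤ ∑ q ∈ (P i ×ˢ P j).filter (fun q => G.Adj q.1 q.2), (IT G P v0 (S.erase j)).card :=
          sum_le_sum fun q _ => card_image_le.trans (card_through_le G P v0 S j q.2)
      _ = ((P i ×ˢ P j).filter (fun q => G.Adj q.1 q.2)).card * (IT G P v0 (S.erase j)).card := by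
          rw [sum_const, smul_eq_mul]
      _ = (∑ x ∈ P i, ((P j).filter (fun y => G.Adj x y)).card) *
            (IT G P v0 (S.erase j)).card := by
          congr 1
          rw [card_filter, sum_product]
          refine sum_congr rfl fun x _ => ?_
          rw [card_filter]
  -- use the induction hypothesis
  have hind : ∀ j ∈ S, 2 * D * (IT G P v0 (S.erase j)).card ≤ (IT G P v0 S).card := by
    intro j hj
    have hlt : (S.erase j).card < n := by
      rw [← hS]; exact card_erase_lt_of_mem hj
    have h := ih _ hlt (S.erase j) ((erase_subset _ _).trans hSS) rfl j (hSS hj)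
      (notMem_erase j S)
    rw [insert_erase hj] at h
    have h4 := hP j (hSS hj)
    have : 4 * D * (IT G P v0 (S.erase j)).card ≤ 2 * (IT G P v0 S).card :=
      (Nat.mul_le_mul_right _ h4).trans h
    nlinarith
  have hbad2 : 2 * D * bad.card ≤ D * ((P i).card * (IT G P v0 S).card) := by
    calc 2 * D * bad.card ≤ 2 * D * ∑ j ∈ S, (∑ x ∈ P i, ((P j).filter (fun y => G.Adj x y)).card) *
          (IT G P v0 (S.erase j)).card := Nat.mul_le_mul_left _ hbadle
      _ = ∑ j ∈ S, (∑ x ∈ P i, ((P j).filter (fun y => G.Adj x y)).card) *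
          (2 * D * (IT G P v0 (S.erase j)).card) := by
          rw [mul_sum]; refine sum_congr rfl fun j _ => by ring
      _ ≤ ∑ j ∈ S, (∑ x ∈ P i, ((P j).filter (fun y => G.Adj x y)).card) *
          (IT G P v0 S).card := sum_le_sum fun j hj => Nat.mul_le_mul_left _ (hind j hj)
      _ = (∑ x ∈ P i, ∑ j ∈ S, ((P j).filter (fun y => G.Adj x y)).card) *
          (IT G P v0 S).card := by rw [← sum_mul, sum_comm]
      _ ≤ (∑ x ∈ P i, D) * (IT G P v0 S).card := by
          refine Nat.mul_le_mul_right _ (sum_le_sum fun x hx => ?_)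
          refine (sum_le_sum_of_subset ?_).trans (hdeg i hi0 x hx)
          intro k hk
          exact mem_erase.mpr ⟨fun h => hi (h ▸ hk), hSS hk⟩
      _ = D * ((P i).card * (IT G P v0 S).card) := by
          rw [sum_const, smul_eq_mul]; ring
  have hbad3 : 2 * bad.card ≤ (P i).card * (IT G P v0 S).card := by
    have : D * (2 * bad.card) ≤ D * ((P i).card * (IT G P v0 S).card) := by
      calc D * (2 * bad.card) = 2 * D * bad.card := by ring
        _ ≤ _ := hbad2
    exact Nat.le_of_mul_le_mul_left this hD
  have hsplit : (A \ bad).card + bad.card = A.card := by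
    have hsub : bad ⊆ A := filter_subset _ _
    rw [card_sdiff_of_subset hsub]
    have := card_le_card hsub
    omega
  rw [← hAcard] at hbad3 ⊢
  omega

/-- Independent transversals exist when all parts have at least `4D` elements and every vertex has
at most `D` neighbours in the other parts. -/
theorem exists_transversal (G : SimpleGraph V) [DecidableRel G.Adj] (P : ι → Finset V) (v0 : V)
    (D : ℕ) (hD : 0 < D) (S : Finset ι)
    (hP : ∀ i ∈ S, 4 * D ≤ (P i).card)
    (hdeg : ∀ i ∈ S, ∀ x ∈ P i, ∑ j ∈ S.erase i, ((P j).filter (fun y => G.Adj x y)).card ≤ D) :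
    ∃ f : ι → V, (∀ i ∈ S, f i ∈ P i) ∧
      (∀ i ∈ S, ∀ j ∈ S, i ≠ j → ¬ G.Adj (f i) (f j)) := by
  classical
  have key : ∀ T : Finset ι, T ⊆ S → 0 < (IT G P v0 T).card := by
    intro T
    induction T using Finset.induction_on with
    | empty => intro _; exact IT_empty_card G P v0
    | insert a T ha ih =>
      intro hT
      have h1 := ih ((subset_insert _ _).trans hT)
      have haS : a ∈ S := hT (mem_insert_self _ _)
      have h2 := IT_step G P v0 D hD S hP hdeg T.card T ((subset_insert _ _).trans hT) rfl a haS ha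
      have h3 := hP a haS
      have h4 : 0 < (P a).card * (IT G P v0 T).card := Nat.mul_pos (by omega) h1
      omega
  obtain ⟨f, hf⟩ := card_pos.mp (key S (Subset.refl _))
  obtain ⟨h1, _, h3⟩ := mem_IT.mp hf
  exact ⟨f, h1, h3⟩

end Pool.Agent.Helper45.Vu
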