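import Mathlib
import Pool.Agent.Helper45.Vu.IT

set_option autoImplicit false

namespace Pool.Agent.Helper45.Vu

open Finset

variable {V : Type*} [Fintype V] [DecidableEq V]

/-- A family of pairwise disjoint large cliques `Q a ∋ a`, `a ∈ Good ⊆ I`, with no vertex adjacent
to `I \ Good`. -/
structure Cl (G : SimpleGraph V) (I : Finset V) (D : ℕ) (Good : Finset V) (Q : V → Finset V) :
    Prop where
  sub : Good ⊆ I
  mem : ∀ a ∈ Good, a ∈ Q a
  cl : ∀ a ∈ Good, ∀ x ∈ Q a, ∀ y ∈ Q a, x ≠ y → G.Adj x y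
  big : ∀ a ∈ Good, 19 * D ≤ 20 * (Q a).card
  disj : ∀ a ∈ Good, ∀ b ∈ Good, a ≠ b → Disjoint (Q a) (Q b)
  nbad : ∀ a ∈ Good, ∀ x ∈ Q a, ∀ b ∈ I \ Good, ¬ G.Adj b x

lemma exists_max_Cl (G : SimpleGraph V) (I : Finset V) (D : ℕ) :
    ∃ Good Q, Cl G I D Good Q ∧ ∀ Good' Q', Cl G I D Good' Q' → Good'.card ≤ Good.card := by
  classical
  set S : Set ℕ := {n | ∃ Good Q, Cl G I D Good Q ∧ Good.card = n} with hS
  have hne : S.Nonempty := ⟨0, ∅, fun _ => ∅, by constructor <;> simp, rfl⟩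
  have hbdd : BddAbove S := by
    refine ⟨Fintype.card V, ?_⟩
    rintro n ⟨Good, Q, _, rfl⟩
    exact card_le_univ _
  obtain ⟨Good, Q, h1, h2⟩ := Nat.sSup_mem hne hbdd
  refine ⟨Good, Q, h1, fun Good' Q' h' => ?_⟩
  rw [h2]
  exact le_csSup hbdd ⟨Good', Q', h', rfl⟩

variable (G : SimpleGraph V) [DecidableRel G.Adj]

/-- The vertices of `Q b` not adjacent to `T`. -/
def L (Q : V → Finset V) (T : Finset V) (b : V) : Finset V :=
  (Q b).filter (fun x => ∀ t ∈ T, ¬ G.Adj t x)

variable {G}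

lemma mem_L {Q : V → Finset V} {T : Finset V} {b x : V} :
    x ∈ L G Q T b ↔ x ∈ Q b ∧ ∀ t ∈ T, ¬ G.Adj t x := by
  unfold L; simp

/-- few neighbours outside the own clique -/
lemma ext_le {I : Finset V} {D : ℕ} {Good : Finset V} {Q : V → Finset V}
    (h : Cl G I D Good Q) (hdeg : ∀ v, G.degree v ≤ D) {a x : V} (ha : a ∈ Good) (hx : x ∈ Q a) :
    (univ.filter (fun y => G.Adj x y ∧ y ∉ Q a)).card ≤ D / 20 + 1 := by
  classical
  have h1 : (G.neighborFinset x).card ≤ D := hdeg x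
  have h2 : (Q a).erase x ∪ univ.filter (fun y => G.Adj x y ∧ y ∉ Q a) ⊆ G.neighborFinset x := by
    intro y hy
    rw [SimpleGraph.mem_neighborFinset]
    rcases mem_union.mp hy with hy | hy
    · obtain ⟨hyx, hyQ⟩ := mem_erase.mp hy
      exact h.cl a ha x hx y hyQ (Ne.symm hyx)
    · exact (mem_filter.mp hy).2.1
  have h3 : Disjoint ((Q a).erase x) (univ.filter (fun y => G.Adj x y ∧ y ∉ Q a)) := by
    rw [disjoint_left]
    intro y hy hy'
    exact (mem_filter.mp hy').2.2 (mem_of_mem_erase hy)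
  have h4 := (card_union_of_disjoint h3) ▸ card_le_card h2
  have h5 : ((Q a).erase x).card = (Q a).card - 1 := card_erase_of_mem hx
  have h6 := h.big a ha
  have h7 : 0 < (Q a).card := card_pos.mpr ⟨x, hx⟩
  omega

lemma sum_ext_le {I : Finset V} {D : ℕ} {Good : Finset V} {Q : V → Finset V}
    (h : Cl G I D Good Q) (hdeg : ∀ v, G.degree v ≤ D) {a x : V} (ha : a ∈ Good) (hx : x ∈ Q a)
    (S : Finset V) (hS : S ⊆ Good) (haS : a ∉ S) (P : V → Finset V) (hP : ∀ b ∈ S, P b ⊆ Q b) :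
    ∑ j ∈ S, ((P j).filter (fun y => G.Adj x y)).card ≤ D / 20 + 1 := by
  classical
  refine le_trans ?_ (ext_le h hdeg ha hx)
  rw [← card_biUnion]
  · refine card_le_card ?_
    intro y hy
    obtain ⟨j, hj, hy⟩ := mem_biUnion.mp hy
    obtain ⟨hyP, hadj⟩ := mem_filter.mp hy
    refine mem_filter.mpr ⟨mem_univ _, hadj, fun hyQ => ?_⟩
    have hja : j ≠ a := fun h => haS (h ▸ hj)
    exact (disjoint_left.mp (h.disj j (hS hj) a ha hja)) (hP j hj hyP) hyQ
  · intro j hj k hk hjk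
    have hd := h.disj j (hS hj) k (hS hk) hjk
    exact (hd.mono (hP j hj) (hP k hk)).mono (filter_subset _ _) (filter_subset _ _)

/-- The flexibility lemma: independent transversals of the cliques avoiding the neighbours of `T`. -/
theorem flex {I : Finset V} {D : ℕ} {Good : Finset V} {Q : V → Finset V}
    (h : Cl G I D Good Q) (hdeg : ∀ v, G.degree v ≤ D) (T : Finset V)
    (hcov : ∀ b ∈ Good, (L G Q T b).Nonempty)
    (hone : ∀ b ∈ Good, ∀ b' ∈ Good, b ≠ b' →
      5 * (D / 20 + 1) ≤ (L G Q T b).card ∨ 5 * (D / 20 + 1) ≤ (L G Q T b').card) :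
    ∃ x : V → V, (∀ b ∈ Good, x b ∈ L G Q T b) ∧
      (∀ b ∈ Good, ∀ b' ∈ Good, b ≠ b' → ¬ G.Adj (x b) (x b')) := by
  classical
  have hLQ : ∀ b, L G Q T b ⊆ Q b := fun b => filter_subset _ _
  by_cases hsm : ∃ b0 ∈ Good, (L G Q T b0).card < 5 * (D / 20 + 1)
  · obtain ⟨b0, hb0, hlt⟩ := hsm
    obtain ⟨x0, hx0⟩ := hcov b0 hb0
    set P : V → Finset V := fun b => (L G Q T b).filter (fun y => ¬ G.Adj x0 y) with hPdef
    have hPL : ∀ b, P b ⊆ L G Q T b := fun b => filter_subset _ _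
    have hPcard : ∀ b ∈ Good.erase b0, 4 * (D / 20 + 1) ≤ (P b).card := by
      intro b hb
      obtain ⟨hbb, hbG⟩ := mem_erase.mp hb
      have h5 : 5 * (D / 20 + 1) ≤ (L G Q T b).card := by
        rcases hone b hbG b0 hb0 hbb with h' | h'
        · exact h'
        · omega
      have h1 : ((L G Q T b).filter (fun y => G.Adj x0 y)).card ≤ D / 20 + 1 := by
        refine le_trans (card_le_card ?_) (ext_le h hdeg hb0 (hLQ b0 hx0))
        intro y hy
        obtain ⟨hyL, hadj⟩ := mem_filter.mp hy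
        refine mem_filter.mpr ⟨mem_univ _, hadj, fun hyQ => ?_⟩
        exact (disjoint_left.mp (h.disj b hbG b0 hb0 hbb)) (hLQ b hyL) hyQ
      have h2 := card_filter_add_card_filter_not (s := L G Q T b) (fun y => G.Adj x0 y)
      have h3 : (P b).card = ((L G Q T b).filter (fun y => ¬ G.Adj x0 y)).card := rfl
      omega
    obtain ⟨f, hf1, hf2⟩ := exists_transversal G P x0 (D / 20 + 1) (by omega) (Good.erase b0)
      hPcard (by
        intro i hi x hx
        obtain ⟨_, hiG⟩ := mem_erase.mp hi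
        exact sum_ext_le h hdeg hiG (hLQ i (hPL i hx)) _
          ((erase_subset _ _).trans (erase_subset _ _)) (notMem_erase _ _) P
          (fun b _ => (hPL b).trans (hLQ b)))
    refine ⟨fun b => if b = b0 then x0 else f b, ?_, ?_⟩
    · intro b hb
      by_cases hbb : b = b0
      · subst hbb; simpa using hx0
      · simp only [hbb, if_false]
        exact hPL b (hf1 b (mem_erase.mpr ⟨hbb, hb⟩))
    · intro b hb b' hb' hne
      by_cases hbb : b = b0
      · have hbb' : b' ≠ b0 := fun h' => hne (hbb.trans h'.symm)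
        simp only [hbb, hbb', if_true, if_false]
        exact (mem_filter.mp (hf1 b' (mem_erase.mpr ⟨hbb', hb'⟩))).2
      · by_cases hbb' : b' = b0
        · simp only [hbb, hbb', if_true, if_false]
          intro hadj
          exact (mem_filter.mp (hf1 b (mem_erase.mpr ⟨hbb, hb⟩))).2 hadj.symm
        · simp only [hbb, hbb', if_false]
          exact hf2 b (mem_erase.mpr ⟨hbb, hb⟩) b' (mem_erase.mpr ⟨hbb', hb'⟩) hne
  · push Not at hsm
    rcases Good.eq_empty_or_nonempty with hG | ⟨b0, hb0⟩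
    · subst hG
      exact ⟨id, by simp, by simp⟩
    obtain ⟨f, hf1, hf2⟩ := exists_transversal G (L G Q T) b0 (D / 20 + 1) (by omega) Good
      (fun i hi => by have := hsm i hi; omega) (by
        intro i hi x hx
        exact sum_ext_le h hdeg hi (hLQ i hx) _ (erase_subset _ _) (notMem_erase _ _) (L G Q T)
          (fun b _ => hLQ b))
    exact ⟨f, hf1, hf2⟩

/-- `Bad` is disjoint from the cliques. -/
lemma bad_disj {I : Finset V} {D : ℕ} {Good : Finset V} {Q : V → Finset V}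
    (h : Cl G I D Good Q) (hI : ∀ x ∈ I, ∀ y ∈ I, ¬ G.Adj x y) {a b : V} (ha : a ∈ Good)
    (hb : b ∈ I \ Good) : b ∉ Q a := by
  intro hbQ
  obtain ⟨hbI, hbG⟩ := mem_sdiff.mp hb
  have hne : a ≠ b := fun h' => hbG (h' ▸ ha)
  exact hI a (h.sub ha) b hbI (h.cl a ha a (h.mem a ha) b hbQ hne)

/-- The exchange inequality for a maximum independent set. -/
theorem gain {I : Finset V} {D : ℕ} {Good : Finset V} {Q : V → Finset V}
    (h : Cl G I D Good Q) (hdeg : ∀ v, G.degree v ≤ D) (hI : ∀ x ∈ I, ∀ y ∈ I, ¬ G.Adj x y)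
    (hmax : ∀ J : Finset V, (∀ x ∈ J, ∀ y ∈ J, ¬ G.Adj x y) → J.card ≤ I.card)
    (T : Finset V) (hT : ∀ x ∈ T, ∀ y ∈ T, ¬ G.Adj x y)
    (hTQ : ∀ b ∈ Good, ∀ t ∈ T, t ∉ Q b) (hTB : Disjoint T (I \ Good))
    (hcov : ∀ b ∈ Good, (L G Q T b).Nonempty)
    (hone : ∀ b ∈ Good, ∀ b' ∈ Good, b ≠ b' →
      5 * (D / 20 + 1) ≤ (L G Q T b).card ∨ 5 * (D / 20 + 1) ≤ (L G Q T b').card) :
    T.card ≤ ((I \ Good).filter (fun a => ∃ t ∈ T, G.Adj t a)).card := by
  classical
  obtain ⟨x, hx1, hx2⟩ := flex h hdeg T hcov hone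
  set B1 := (I \ Good).filter (fun a => ¬ ∃ t ∈ T, G.Adj t a) with hB1
  have hxQ : ∀ b ∈ Good, x b ∈ Q b := fun b hb => (mem_L.mp (hx1 b hb)).1
  have hinj : Set.InjOn x (Good : Set V) := by
    intro b hb b' hb' hbb
    by_contra hne
    have h1 := hxQ b hb
    rw [hbb] at h1
    exact (disjoint_left.mp (h.disj b hb b' hb' hne)) h1 (hxQ b' hb')
  have hd1 : Disjoint B1 T := (hTB.symm).mono_left (filter_subset _ _)
  have hd2 : Disjoint (B1 ∪ T) (Good.image x) := by
    rw [disjoint_left]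
    intro y hy hy'
    obtain ⟨b, hb, rfl⟩ := mem_image.mp hy'
    rcases mem_union.mp hy with hy | hy
    · exact bad_disj h hI hb (mem_filter.mp hy).1 (hxQ b hb)
    · exact hTQ b hb _ hy (hxQ b hb)
  have hcard : (B1 ∪ T ∪ Good.image x).card = B1.card + T.card + Good.card := by
    rw [card_union_of_disjoint hd2, card_union_of_disjoint hd1, card_image_of_injOn hinj]
  have hBT : ∀ y ∈ B1, ∀ z ∈ T, ¬ G.Adj y z := by
    intro y hy z hz hadj
    exact (mem_filter.mp hy).2 ⟨z, hz, hadj.symm⟩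
  have hBx : ∀ y ∈ B1, ∀ b ∈ Good, ¬ G.Adj y (x b) := by
    intro y hy b hb
    exact h.nbad b hb (x b) (hxQ b hb) y (mem_filter.mp hy).1
  have hTx : ∀ y ∈ T, ∀ b ∈ Good, ¬ G.Adj y (x b) := by
    intro y hy b hb
    exact (mem_L.mp (hx1 b hb)).2 y hy
  have hind : ∀ y ∈ B1 ∪ T ∪ Good.image x, ∀ z ∈ B1 ∪ T ∪ Good.image x, ¬ G.Adj y z := by
    intro y hy z hz hadj
    rcases mem_union.mp hy with hy | hy
    · rcases mem_union.mp hy with hy | hy
      · rcases mem_union.mp hz with hz | hz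
        · rcases mem_union.mp hz with hz | hz
          · exact hI y (mem_sdiff.mp (mem_filter.mp hy).1).1 z
              (mem_sdiff.mp (mem_filter.mp hz).1).1 hadj
          · exact hBT y hy z hz hadj
        · obtain ⟨b, hb, rfl⟩ := mem_image.mp hz
          exact hBx y hy b hb hadj
      · rcases mem_union.mp hz with hz | hz
        · rcases mem_union.mp hz with hz | hz
          · exact hBT z hz y hy hadj.symm
          · exact hT y hy z hz hadj
        · obtain ⟨b, hb, rfl⟩ := mem_image.mp hz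
          exact hTx y hy b hb hadj
    · obtain ⟨b, hb, rfl⟩ := mem_image.mp hy
      rcases mem_union.mp hz with hz | hz
      · rcases mem_union.mp hz with hz | hz
        · exact hBx z hz b hb hadj.symm
        · exact hTx z hz b hb hadj.symm
      · obtain ⟨b', hb', rfl⟩ := mem_image.mp hz
        by_cases hbb : b = b'
        · subst hbb; exact G.loopless.irrefl _ hadj
        · exact hx2 b hb b' hb' hbb hadj
  have h1 := hmax _ hind
  rw [hcard] at h1
  have h2 : (I \ Good).card + Good.card = I.card := by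
    rw [card_sdiff_of_subset h.sub]
    have := card_le_card h.sub
    omega
  have h3 := card_filter_add_card_filter_not (s := I \ Good) (fun a => ∃ t ∈ T, G.Adj t a)
  have h4 : B1.card = ((I \ Good).filter (fun a => ¬ ∃ t ∈ T, G.Adj t a)).card := rfl
  omega

end Pool.Agent.Helper45.Vu
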