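import Mathlib
import Pool.Agent.Helper45.Vu.Flex

set_option autoImplicit false

namespace Pool.Agent.Helper45.Vu

open Finset

variable {V : Type*} [Fintype V] [DecidableEq V]
variable (G : SimpleGraph V) [DecidableRel G.Adj]

/-- Number of neighbours of `v` in `Q b`. -/
def dQ (Q : V → Finset V) (b v : V) : ℕ := ((Q b).filter (fun y => G.Adj v y)).card

/-- Proportion of pairs of `Q b` in the neighbourhood of `v`. -/
noncomputable def w (Q : V → Finset V) (b v : V) : ℝ :=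
  ((dQ G Q b v : ℝ) * ((dQ G Q b v : ℝ) - 1)) / (((Q b).card : ℝ) * (((Q b).card : ℝ) - 1))

variable {G}

lemma nat_mul_pred_nonneg (n : ℕ) : (0 : ℝ) ≤ (n : ℝ) * ((n : ℝ) - 1) := by
  rcases Nat.eq_zero_or_pos n with h | h
  · subst h; simp
  · have : (1 : ℝ) ≤ n := by exact_mod_cast h
    exact mul_nonneg (by linarith) (by linarith)

lemma w_nonneg (Q : V → Finset V) (b v : V) : 0 ≤ w G Q b v := by
  unfold w
  exact div_nonneg (nat_mul_pred_nonneg _) (nat_mul_pred_nonneg _)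

lemma dQ_le (Q : V → Finset V) (b v : V) : dQ G Q b v ≤ (Q b).card := card_filter_le _ _

/-- Double counting of the codegrees of the pairs inside a clique. -/
theorem cluster_sum (Q : V → Finset V) (b : V) (C : ℝ)
    (hcod : ∀ u v : V, u ≠ v → (((univ.filter (fun x => G.Adj u x ∧ G.Adj v x)).card : ℕ) : ℝ) ≤ C)
    (hcl : ∀ x ∈ Q b, ∀ y ∈ Q b, x ≠ y → G.Adj x y) (hs : 2 ≤ (Q b).card)
    (W : Finset V) (hW : Disjoint W (Q b)) :
    ((Q b).card : ℝ) + ∑ v ∈ W, w G Q b v ≤ C + 2 := by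
  classical
  set s : ℝ := ((Q b).card : ℝ) with hsdef
  have hs2 : (2 : ℝ) ≤ s := by rw [hsdef]; exact_mod_cast hs
  have hpos : 0 < s * (s - 1) := mul_pos (by linarith) (by linarith)
  -- the sum over pairs
  have h1 : ∑ p ∈ (Q b).offDiag,
      (((univ.filter (fun x => G.Adj p.1 x ∧ G.Adj p.2 x)).card : ℕ) : ℝ) ≤ s * (s - 1) * C := by
    calc _ ≤ ∑ p ∈ (Q b).offDiag, C := by
          refine sum_le_sum fun p hp => ?_
          exact hcod p.1 p.2 (mem_offDiag.mp hp).2.2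
      _ = s * (s - 1) * C := by
          rw [sum_const, nsmul_eq_mul, offDiag_card]
          have : ((Q b).card) ≤ (Q b).card * (Q b).card := Nat.le_mul_self _
          rw [Nat.cast_sub this]
          push_cast
          ring
  have h2 : ∑ p ∈ (Q b).offDiag,
      (((univ.filter (fun x => G.Adj p.1 x ∧ G.Adj p.2 x)).card : ℕ) : ℝ) =
      ∑ x : V, (dQ G Q b x : ℝ) * ((dQ G Q b x : ℝ) - 1) := by
    have h3 : ∀ x : V, (dQ G Q b x : ℝ) * ((dQ G Q b x : ℝ) - 1) =
        ∑ p ∈ (Q b).offDiag, if G.Adj p.1 x ∧ G.Adj p.2 x then (1 : ℝ) else 0 := by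
      intro x
      have h4 : (Q b).offDiag.filter (fun p => G.Adj p.1 x ∧ G.Adj p.2 x) =
          ((Q b).filter (fun y => G.Adj x y)).offDiag := by
        ext ⟨p, q⟩
        simp only [mem_filter, mem_offDiag]
        constructor
        · rintro ⟨⟨h1, h2, h3⟩, h4, h5⟩
          exact ⟨⟨h1, h4.symm⟩, ⟨h2, h5.symm⟩, h3⟩
        · rintro ⟨⟨h1, h4⟩, ⟨h2, h5⟩, h3⟩
          exact ⟨⟨h1, h2, h3⟩, h4.symm, h5.symm⟩
      rw [← sum_filter, sum_const, nsmul_eq_mul, mul_one, h4, offDiag_card]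
      have : (((Q b).filter (fun y => G.Adj x y)).card) ≤
          ((Q b).filter (fun y => G.Adj x y)).card * ((Q b).filter (fun y => G.Adj x y)).card :=
        Nat.le_mul_self _
      rw [Nat.cast_sub this]
      unfold dQ
      push_cast
      ring
    simp_rw [h3]
    rw [sum_comm]
    refine sum_congr rfl fun p _ => ?_
    rw [← sum_filter, sum_const, nsmul_eq_mul, mul_one]
  -- vertices of the clique
  have h5 : ∀ x ∈ Q b, (dQ G Q b x : ℝ) = s - 1 := by
    intro x hx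
    have h6 : (Q b).filter (fun y => G.Adj x y) = (Q b).erase x := by
      ext y
      simp only [mem_filter, mem_erase]
      constructor
      · rintro ⟨h1, h2⟩
        exact ⟨fun h => G.loopless.irrefl x (h ▸ h2), h1⟩
      · rintro ⟨h1, h2⟩
        exact ⟨h2, hcl x hx y h2 (Ne.symm h1)⟩
    unfold dQ
    rw [h6, card_erase_of_mem hx, Nat.cast_sub (by omega)]
    simp [hsdef]
  have h7 : s * ((s - 1) * (s - 2)) + ∑ v ∈ W, (dQ G Q b v : ℝ) * ((dQ G Q b v : ℝ) - 1) ≤
      ∑ x : V, (dQ G Q b x : ℝ) * ((dQ G Q b x : ℝ) - 1) := by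
    calc _ = ∑ x ∈ Q b, (dQ G Q b x : ℝ) * ((dQ G Q b x : ℝ) - 1) +
          ∑ v ∈ W, (dQ G Q b v : ℝ) * ((dQ G Q b v : ℝ) - 1) := by
          congr 1
          rw [sum_congr rfl (fun x hx => by rw [h5 x hx]), sum_const, nsmul_eq_mul]
          rw [← hsdef]; ring
      _ = ∑ x ∈ Q b ∪ W, (dQ G Q b x : ℝ) * ((dQ G Q b x : ℝ) - 1) :=
          (sum_union hW.symm).symm
      _ ≤ _ := sum_le_sum_of_subset_of_nonneg (subset_univ _)
          (fun x _ _ => nat_mul_pred_nonneg _)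
  have h8 : ∑ v ∈ W, w G Q b v =
      (∑ v ∈ W, (dQ G Q b v : ℝ) * ((dQ G Q b v : ℝ) - 1)) / (s * (s - 1)) := by
    rw [sum_div]; rfl
  have h9 : s * ((s - 1) * (s - 2)) + ∑ v ∈ W, (dQ G Q b v : ℝ) * ((dQ G Q b v : ℝ) - 1) ≤
      s * (s - 1) * C := h7.trans (h2 ▸ h1)
  rw [h8, ← sub_nonneg]
  have : C + 2 - (s + (∑ v ∈ W, (dQ G Q b v : ℝ) * ((dQ G Q b v : ℝ) - 1)) / (s * (s - 1))) =
      (s * (s - 1) * C - (s * ((s - 1) * (s - 2)) +
        ∑ v ∈ W, (dQ G Q b v : ℝ) * ((dQ G Q b v : ℝ) - 1))) / (s * (s - 1)) := by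
    have hs0 : s ≠ 0 := by linarith
    have hs1 : s - 1 ≠ 0 := by linarith
    field_simp
    ring
  rw [this]
  exact div_nonneg (by linarith) hpos.le

/-- Greedy removal of nonadjacent pairs. -/
theorem exists_clique (c : ℝ) (k : V → ℝ) :
    ∀ n : ℕ, ∀ X : Finset V, X.card = n →
      (∀ u ∈ X, ∀ v ∈ X, u ≠ v → ¬ G.Adj u v → c ≤ k u + k v) →
      ∃ M : Finset V, M ⊆ X ∧ (∀ u ∈ M, ∀ v ∈ M, u ≠ v → G.Adj u v) ∧
        c / 2 * ((X \ M).card : ℝ) ≤ ∑ v ∈ X \ M, k v := by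
  classical
  intro n
  induction n using Nat.strong_induction_on with
  | _ n ih =>
  intro X hX hk
  by_cases hcl : ∀ u ∈ X, ∀ v ∈ X, u ≠ v → G.Adj u v
  · exact ⟨X, Subset.refl _, hcl, by simp⟩
  · push Not at hcl
    obtain ⟨u, hu, v, hv, huv, hadj⟩ := hcl
    set Y := (X.erase u).erase v with hY
    have hYX : Y ⊆ X := (erase_subset _ _).trans (erase_subset _ _)
    have hlt : Y.card < n := by
      rw [← hX]
      exact lt_of_le_of_lt (card_le_card (erase_subset _ _)) (card_erase_lt_of_mem hu)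
    obtain ⟨M, hM1, hM2, hM3⟩ := ih _ hlt Y rfl
      (fun a ha b hb => hk a (hYX ha) b (hYX hb))
    refine ⟨M, hM1.trans hYX, hM2, ?_⟩
    have huM : u ∉ M := fun h => by
      have := hM1 h
      simp [hY] at this
    have hvM : v ∉ M := fun h => by
      have := hM1 h
      simp [hY] at this
    have hsd : X \ M = insert u (insert v (Y \ M)) := by
      ext a
      simp only [hY, mem_sdiff, mem_insert, mem_erase]
      constructor
      · rintro ⟨h1, h2⟩
        by_cases hau : a = u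
        · exact Or.inl hau
        · by_cases hav : a = v
          · exact Or.inr (Or.inl hav)
          · exact Or.inr (Or.inr ⟨⟨hav, hau, h1⟩, h2⟩)
      · rintro (rfl | rfl | ⟨⟨_, _, h1⟩, h2⟩)
        · exact ⟨hu, huM⟩
        · exact ⟨hv, hvM⟩
        · exact ⟨h1, h2⟩
    have hv' : v ∉ Y \ M := by simp [hY]
    have hu' : u ∉ insert v (Y \ M) := by
      simp [hY, huv]
    rw [hsd, sum_insert hu', sum_insert hv', card_insert_of_notMem hu',
      card_insert_of_notMem hv']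
    have := hk u hu v hv huv hadj
    push_cast
    linarith

end Pool.Agent.Helper45.Vu
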