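import Mathlib
import Pool.Agent.Helper45.Vu.Count

set_option autoImplicit false

namespace Pool.Agent.Helper45.Vu

open Finset

variable {V : Type*} [Fintype V] [DecidableEq V]
variable {G : SimpleGraph V} [DecidableRel G.Adj]

lemma card_L_add (Q : V → Finset V) (T : Finset V) (b : V) :
    (Q b).card ≤ (L G Q T b).card + ∑ t ∈ T, dQ G Q b t := by
  classical
  have h1 : Q b ⊆ L G Q T b ∪ T.biUnion (fun t => (Q b).filter (fun y => G.Adj t y)) := by
    intro x hx
    by_cases h : ∀ t ∈ T, ¬ G.Adj t x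
    · exact mem_union_left _ (mem_L.mpr ⟨hx, h⟩)
    · push Not at h
      obtain ⟨t, ht, hadj⟩ := h
      exact mem_union_right _ (mem_biUnion.mpr ⟨t, ht, mem_filter.mpr ⟨hx, hadj⟩⟩)
  refine (card_le_card h1).trans ((card_union_le _ _).trans ?_)
  exact Nat.add_le_add_left card_biUnion_le _

/-- Two disjoint cliques share the degree. -/
lemma dQ_add_le {D : ℕ} (hdeg : ∀ v, G.degree v ≤ D) (Q : V → Finset V) {b b' : V}
    (hd : Disjoint (Q b) (Q b')) (v : V) : dQ G Q b v + dQ G Q b' v ≤ D := by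
  classical
  refine le_trans ?_ (hdeg v)
  unfold dQ
  rw [← card_union_of_disjoint (hd.mono (filter_subset _ _) (filter_subset _ _))]
  refine card_le_card ?_
  intro y hy
  rw [SimpleGraph.mem_neighborFinset]
  rcases mem_union.mp hy with hy | hy
  · exact (mem_filter.mp hy).2
  · exact (mem_filter.mp hy).2

/-- Step (1): a vertex without bad hub is complete to some clique. -/
theorem blocked {I : Finset V} {D : ℕ} (hD : 25 ≤ D) {Good : Finset V} {Q : V → Finset V}
    (h : Cl G I D Good Q) (hdeg : ∀ v, G.degree v ≤ D) (hI : ∀ x ∈ I, ∀ y ∈ I, ¬ G.Adj x y)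
    (hmax : ∀ J : Finset V, (∀ x ∈ J, ∀ y ∈ J, ¬ G.Adj x y) → J.card ≤ I.card)
    (v : V) (hvQ : ∀ b ∈ Good, v ∉ Q b) (hvB : v ∉ I \ Good)
    (hvN : ∀ a ∈ I \ Good, ¬ G.Adj v a) :
    ∃ b ∈ Good, dQ G Q b v = (Q b).card := by
  classical
  by_contra hcon
  push Not at hcon
  have hsum : ∀ b, ∑ t ∈ ({v} : Finset V), dQ G Q b t = dQ G Q b v := fun b => sum_singleton _ _
  have hcov : ∀ b ∈ Good, (L G Q {v} b).Nonempty := by
    intro b hb
    rw [← card_pos]
    have h1 := card_L_add (G := G) Q {v} b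
    rw [hsum] at h1
    have h2 := dQ_le (G := G) Q b v
    have h3 := hcon b hb
    omega
  have hone : ∀ b ∈ Good, ∀ b' ∈ Good, b ≠ b' →
      5 * (D / 20 + 1) ≤ (L G Q {v} b).card ∨ 5 * (D / 20 + 1) ≤ (L G Q {v} b').card := by
    intro b hb b' hb' hne
    by_contra hcc
    push Not at hcc
    have h1 := card_L_add (G := G) Q {v} b
    have h1' := card_L_add (G := G) Q {v} b'
    rw [hsum] at h1 h1'
    have h2 := dQ_add_le hdeg Q (h.disj b hb b' hb' hne) v
    have h3 := h.big b hb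
    have h3' := h.big b' hb'
    omega
  have hg := gain h hdeg hI hmax {v} (by
      intro x hx y hy hadj
      rw [mem_singleton] at hx hy
      subst hx; subst hy
      exact G.loopless.irrefl _ hadj) (by
      intro b hb t ht
      rw [mem_singleton] at ht
      subst ht
      exact hvQ b hb) (by
      rw [disjoint_singleton_left]; exact hvB) hcov hone
  have h0 : (I \ Good).filter (fun a => ∃ t ∈ ({v} : Finset V), G.Adj t a) = ∅ := by
    rw [filter_eq_empty_iff]
    rintro a ha ⟨t, ht, hadj⟩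
    rw [mem_singleton] at ht
    subst ht
    exact hvN a ha hadj
  rw [h0] at hg
  simp at hg

/-- The cost of a vertex. -/
noncomputable def kk (G : SimpleGraph V) [DecidableRel G.Adj] (Good : Finset V)
    (Q : V → Finset V) (v : V) : ℝ := min 1 (∑ b ∈ Good, w G Q b v)

lemma kk_nonneg (Good : Finset V) (Q : V → Finset V) (v : V) : 0 ≤ kk G Good Q v :=
  le_min zero_le_one (sum_nonneg fun _ _ => w_nonneg _ _ _)

lemma kk_le_one (Good : Finset V) (Q : V → Finset V) (v : V) : kk G Good Q v ≤ 1 := min_le_left _ _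

lemma kk_le_sum (Good : Finset V) (Q : V → Finset V) (v : V) :
    kk G Good Q v ≤ ∑ b ∈ Good, w G Q b v := min_le_right _ _

lemma kk_blocked {Good : Finset V} {Q : V → Finset V} {v b : V} (hb : b ∈ Good)
    (h2 : 2 ≤ (Q b).card) (h : dQ G Q b v = (Q b).card) : kk G Good Q v = 1 := by
  have h1 : w G Q b v = 1 := by
    unfold w
    rw [h]
    have hs2 : (2 : ℝ) ≤ ((Q b).card : ℝ) := by exact_mod_cast h2
    exact div_self (mul_pos (by linarith) (by linarith)).ne'
  have h3 : w G Q b v ≤ ∑ b ∈ Good, w G Q b v :=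
    single_le_sum (f := fun b => w G Q b v) (fun _ _ => w_nonneg _ _ _) hb
  unfold kk
  rw [h1] at h3
  exact min_eq_left h3

lemma kk_add_ge {Good : Finset V} {Q : V → Finset V} {u v : V} {c : ℝ} (hc : c ≤ 1)
    (h : c ≤ ∑ b ∈ Good, w G Q b u + ∑ b ∈ Good, w G Q b v) :
    c ≤ kk G Good Q u + kk G Good Q v := by
  unfold kk
  have h1 : 0 ≤ ∑ b ∈ Good, w G Q b u := sum_nonneg fun _ _ => w_nonneg _ _ _
  have h2 : 0 ≤ ∑ b ∈ Good, w G Q b v := sum_nonneg fun _ _ => w_nonneg _ _ _
  rcases le_total 1 (∑ b ∈ Good, w G Q b u) with h3 | h3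
  · rw [min_eq_left h3]
    have : 0 ≤ min 1 (∑ b ∈ Good, w G Q b v) := le_min zero_le_one h2
    linarith
  · rw [min_eq_right h3]
    rcases le_total 1 (∑ b ∈ Good, w G Q b v) with h4 | h4
    · rw [min_eq_left h4]; linarith
    · rw [min_eq_right h4]; exact h

/-- numerical lower bound of the weight of a pair at one clique -/
lemma w_pair {Q : V → Finset V} {b u v : V} {τ c : ℝ} (hs2 : 2 ≤ (Q b).card) (ht1 : 1 ≤ τ)
    (ht : τ ≤ (dQ G Q b u : ℝ) + dQ G Q b v)
    (hc : 2 * c * (((Q b).card : ℝ) * (((Q b).card : ℝ) - 1)) ≤ τ * τ - 2 * τ) :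
    c ≤ w G Q b u + w G Q b v := by
  unfold w
  have hs : (2 : ℝ) ≤ ((Q b).card : ℝ) := by exact_mod_cast hs2
  have hpos : 0 < ((Q b).card : ℝ) * (((Q b).card : ℝ) - 1) :=
    mul_pos (by linarith) (by linarith)
  rw [← add_div, le_div_iff₀ hpos]
  set d : ℝ := (dQ G Q b u : ℝ)
  set e : ℝ := (dQ G Q b v : ℝ)
  have h1 : τ * τ - 2 * τ ≤ (d + e) * (d + e) - 2 * (d + e) := by nlinarith
  nlinarith [sq_nonneg (d - e)]

/-- Step (3), pairs. -/
theorem pair_cost {I : Finset V} {D : ℕ} (hD : 200 ≤ D) {Good : Finset V} {Q : V → Finset V}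
    (h : Cl G I D Good Q) (hdeg : ∀ v, G.degree v ≤ D) (hI : ∀ x ∈ I, ∀ y ∈ I, ¬ G.Adj x y)
    (hmax : ∀ J : Finset V, (∀ x ∈ J, ∀ y ∈ J, ¬ G.Adj x y) → J.card ≤ I.card)
    (a u v : V) (huv : u ≠ v) (hadj : ¬ G.Adj u v)
    (huQ : ∀ b ∈ Good, u ∉ Q b) (huB : u ∉ I \ Good)
    (huN : ∀ a' ∈ I \ Good, G.Adj u a' → a' = a)
    (hvQ : ∀ b ∈ Good, v ∉ Q b) (hvB : v ∉ I \ Good)
    (hvN : ∀ a' ∈ I \ Good, G.Adj v a' → a' = a) :
    (45 / 100 : ℝ) ≤ kk G Good Q u + kk G Good Q v := by
  classical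
  apply kk_add_ge (by norm_num)
  have hsum : ∀ b, ∑ t ∈ ({u, v} : Finset V), dQ G Q b t = dQ G Q b u + dQ G Q b v :=
    fun b => sum_pair huv
  have hfail : ¬ ((∀ b ∈ Good, (L G Q {u, v} b).Nonempty) ∧ (∀ b ∈ Good, ∀ b' ∈ Good, b ≠ b' →
      5 * (D / 20 + 1) ≤ (L G Q {u, v} b).card ∨ 5 * (D / 20 + 1) ≤ (L G Q {u, v} b').card)) := by
    rintro ⟨hcov, hone⟩
    have hg := gain h hdeg hI hmax {u, v} (by
        intro x hx y hy hxy
        rw [mem_insert, mem_singleton] at hx hy
        rcases hx with rfl | rfl <;> rcases hy with rfl | rfl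
        · exact G.loopless.irrefl _ hxy
        · exact hadj hxy
        · exact hadj hxy.symm
        · exact G.loopless.irrefl _ hxy) (by
        intro b hb t ht
        rw [mem_insert, mem_singleton] at ht
        rcases ht with rfl | rfl
        · exact huQ b hb
        · exact hvQ b hb) (by
        rw [disjoint_left]
        intro t ht
        rw [mem_insert, mem_singleton] at ht
        rcases ht with rfl | rfl
        · exact huB
        · exact hvB) hcov hone
    have h1 : (I \ Good).filter (fun a => ∃ t ∈ ({u, v} : Finset V), G.Adj t a) ⊆ {a} := by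
      intro a' ha'
      obtain ⟨ha1, t, ht, htadj⟩ := mem_filter.mp ha'
      rw [mem_insert, mem_singleton] at ht
      rw [mem_singleton]
      rcases ht with rfl | rfl
      · exact huN a' ha1 htadj
      · exact hvN a' ha1 htadj
    have h2 := card_le_card h1
    rw [card_singleton] at h2
    rw [card_pair huv] at hg
    omega
  have hbig : ∀ b ∈ Good, (190 : ℝ) ≤ ((Q b).card : ℝ) ∧ 190 ≤ (Q b).card := by
    intro b hb
    have h1 := h.big b hb
    have h2 : 190 ≤ (Q b).card := by omega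
    exact ⟨by exact_mod_cast h2, h2⟩
  have hwsum : ∀ b ∈ Good, w G Q b u + w G Q b v ≤
      ∑ b ∈ Good, w G Q b u + ∑ b ∈ Good, w G Q b v := by
    intro b hb
    exact add_le_add (single_le_sum (f := fun b => w G Q b u) (fun _ _ => w_nonneg _ _ _) hb)
      (single_le_sum (f := fun b => w G Q b v) (fun _ _ => w_nonneg _ _ _) hb)
  rw [not_and_or] at hfail
  rcases hfail with hf | hf
  · -- one clique is covered
    push Not at hf
    obtain ⟨b, hb, hemp⟩ := hf
    have h1 := card_L_add (G := G) Q {u, v} b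
    rw [hsum, hemp, card_empty, zero_add] at h1
    obtain ⟨hs1, hs2⟩ := hbig b hb
    refine le_trans ?_ (hwsum b hb)
    refine w_pair (τ := ((Q b).card : ℝ)) (by omega) (by linarith) (by exact_mod_cast h1) ?_
    nlinarith
  · push Not at hf
    obtain ⟨b, hb, b', hb', hne, hlt, hlt'⟩ := hf
    have key : ∀ b ∈ Good, (L G Q {u, v} b).card < 5 * (D / 20 + 1) →
        (225 / 1000 : ℝ) ≤ w G Q b u + w G Q b v := by
      intro b hb hlt
      obtain ⟨hs1, hs2⟩ := hbig b hb
      have h1 := card_L_add (G := G) Q {u, v} b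
      rw [hsum] at h1
      have h3 := h.big b hb
      -- 20 * (s - 5E) ≤ 20 (d+e)
      have h4 : 20 * (Q b).card ≤ 5 * D + 100 + 20 * (dQ G Q b u + dQ G Q b v) := by omega
      have h5 : 20 * ((Q b).card : ℝ) ≤ 5 * D + 100 + 20 * ((dQ G Q b u : ℝ) + dQ G Q b v) := by
        exact_mod_cast h4
      have h6 : 19 * (D : ℝ) ≤ 20 * ((Q b).card : ℝ) := by exact_mod_cast h3
      set s : ℝ := ((Q b).card : ℝ)
      refine w_pair (τ := 14 / 19 * s - 5) (by omega) (by linarith) (by linarith) ?_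
      nlinarith
    have h1 := key b hb hlt
    have h2 := key b' hb' hlt'
    have h3 : w G Q b u + w G Q b' u ≤ ∑ b ∈ Good, w G Q b u := by
      rw [← sum_pair (f := fun b => w G Q b u) hne]
      refine sum_le_sum_of_subset_of_nonneg ?_ (fun _ _ _ => w_nonneg _ _ _)
      intro x hx
      rw [mem_insert, mem_singleton] at hx
      rcases hx with rfl | rfl
      · exact hb
      · exact hb'
    have h4 : w G Q b v + w G Q b' v ≤ ∑ b ∈ Good, w G Q b v := by
      rw [← sum_pair (f := fun b => w G Q b v) hne]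
      refine sum_le_sum_of_subset_of_nonneg ?_ (fun _ _ _ => w_nonneg _ _ _)
      intro x hx
      rw [mem_insert, mem_singleton] at hx
      rcases hx with rfl | rfl
      · exact hb
      · exact hb'
    linarith

end Pool.Agent.Helper45.Vu
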