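import Mathlib
import Pool.Agent.Helper45.Vu.Main

set_option autoImplicit false

namespace Pool.Agent.Helper45.Vu

open Finset

variable {V : Type*} [Fintype V] [DecidableEq V]
variable {G : SimpleGraph V} [DecidableRel G.Adj]

/-- The vertices outside the cliques. -/
def V' (Good : Finset V) (Q : V → Finset V) : Finset V :=
  univ.filter (fun v => ∀ b ∈ Good, v ∉ Q b)

/-- The bad hubs of a vertex. -/
def hub (G : SimpleGraph V) [DecidableRel G.Adj] (I Good : Finset V) (v : V) : Finset V :=
  (I \ Good).filter (fun a => a = v ∨ G.Adj a v)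

lemma mem_V' {Good : Finset V} {Q : V → Finset V} {v : V} :
    v ∈ V' Good Q ↔ ∀ b ∈ Good, v ∉ Q b := by unfold V'; simp

lemma mem_hub {I Good : Finset V} {a v : V} :
    a ∈ hub G I Good v ↔ a ∈ I \ Good ∧ (a = v ∨ G.Adj a v) := by unfold hub; simp

/-- Step (3): every bad hub receives at most `C + 2`. -/
theorem charge_le {I : Finset V} {D : ℕ} (hD : 200 ≤ D) {Good : Finset V} {Q : V → Finset V}
    (h : Cl G I D Good Q)
    (hGmax : ∀ Good' Q', Cl G I D Good' Q' → Good'.card ≤ Good.card)
    (hdeg : ∀ v, G.degree v ≤ D) (hI : ∀ x ∈ I, ∀ y ∈ I, ¬ G.Adj x y)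
    (hmax : ∀ J : Finset V, (∀ x ∈ J, ∀ y ∈ J, ¬ G.Adj x y) → J.card ≤ I.card)
    (C : ℝ) (hC : 99 / 100 * (D : ℝ) ≤ C) (a : V) (ha : a ∈ I \ Good) :
    ∑ v ∈ (V' Good Q).filter (fun v => a = v ∨ G.Adj a v),
      (1 - kk G Good Q v) / ((hub G I Good v).card : ℝ) ≤ C + 2 := by
  classical
  obtain ⟨haI, haG⟩ := mem_sdiff.mp ha
  set N := (V' Good Q).filter (fun v => a = v ∨ G.Adj a v) with hN
  set M1 := N.filter (fun v => (hub G I Good v).card = 1) with hM1
  set M2 := N.filter (fun v => ¬ (hub G I Good v).card = 1) with hM2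
  have haN' : ∀ v ∈ N, a ∈ hub G I Good v := by
    intro v hv
    exact mem_hub.mpr ⟨ha, (mem_filter.mp hv).2⟩
  have hNcard : N.card ≤ D + 1 := by
    have h1 : N ⊆ insert a (G.neighborFinset a) := by
      intro v hv
      rcases (mem_filter.mp hv).2 with h' | h'
      · rw [← h']; exact mem_insert_self _ _
      · exact mem_insert_of_mem ((SimpleGraph.mem_neighborFinset G a v).mpr h')
    have h2 : (G.neighborFinset a).card ≤ D := hdeg a
    have h3 := card_insert_le a (G.neighborFinset a)
    have h4 := card_le_card h1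
    omega
  have hM12 : M1.card + M2.card = N.card :=
    card_filter_add_card_filter_not (s := N) (fun v => (hub G I Good v).card = 1)
  have hhub1 : ∀ v ∈ M1, hub G I Good v = {a} := by
    intro v hv
    obtain ⟨hvN, hc⟩ := mem_filter.mp hv
    obtain ⟨z, hz⟩ := card_eq_one.mp hc
    have := haN' v hvN
    rw [hz, mem_singleton] at this
    rw [hz, this]
  have haV' : a ∈ V' Good Q := mem_V'.mpr fun b hb => bad_disj h hI hb ha
  have haM1 : a ∈ M1 := by
    refine mem_filter.mpr ⟨mem_filter.mpr ⟨haV', Or.inl rfl⟩, ?_⟩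
    have : hub G I Good a = {a} := by
      ext z
      rw [mem_hub, mem_singleton]
      constructor
      · rintro ⟨hz, h' | h'⟩
        · exact h'
        · exact absurd h' (hI z (mem_sdiff.mp hz).1 a haI)
      · rintro rfl
        exact ⟨ha, Or.inl rfl⟩
    rw [this, card_singleton]
  -- elements of M1 other than a
  have hM1prop : ∀ v ∈ M1.erase a, (∀ b ∈ Good, v ∉ Q b) ∧ v ∉ I \ Good ∧
      (∀ a' ∈ I \ Good, G.Adj v a' → a' = a) ∧ G.Adj a v := by
    intro v hv
    obtain ⟨hva, hvM⟩ := mem_erase.mp hv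
    have hvN := (mem_filter.mp hvM).1
    have hh := hhub1 v hvM
    refine ⟨mem_V'.mp (mem_filter.mp hvN).1, fun hvB => ?_, fun a' ha' hadj => ?_, ?_⟩
    · have : v ∈ hub G I Good v := mem_hub.mpr ⟨hvB, Or.inl rfl⟩
      rw [hh, mem_singleton] at this
      exact hva this
    · have : a' ∈ hub G I Good v := mem_hub.mpr ⟨ha', Or.inr hadj.symm⟩
      rw [hh, mem_singleton] at this
      exact this
    · exact ((mem_filter.mp hvN).2).resolve_left (Ne.symm hva)
  obtain ⟨M, hMsub, hMcl, hMcost⟩ := exists_clique (G := G) (45 / 100) (kk G Good Q) _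
    (M1.erase a) rfl (by
      intro u hu v hv huv hadj
      obtain ⟨hu1, hu2, hu3, _⟩ := hM1prop u hu
      obtain ⟨hv1, hv2, hv3, _⟩ := hM1prop v hv
      exact pair_cost hD h hdeg hI hmax a u v huv hadj hu1 hu2 hu3 hv1 hv2 hv3)
  have haM : a ∉ M := fun h' => by simpa using hMsub h'
  have hMcard : (insert a M).card = M.card + 1 := card_insert_of_notMem haM
  -- the clique is small
  have hsmall : 20 * (insert a M).card < 19 * D := by
    by_contra hcon
    push Not at hcon
    have hMcl' : ∀ x ∈ insert a M, ∀ y ∈ insert a M, x ≠ y → G.Adj x y := by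
      intro x hx y hy hxy
      rcases mem_insert.mp hx with hxa | hx'
      · rcases mem_insert.mp hy with hya | hy'
        · exact absurd (hxa.trans hya.symm) hxy
        · rw [hxa]; exact (hM1prop y (hMsub hy')).2.2.2
      · rcases mem_insert.mp hy with hya | hy'
        · rw [hya]; exact ((hM1prop x (hMsub hx')).2.2.2).symm
        · exact hMcl x hx' y hy' hxy
    have hMM1 : ∀ x ∈ insert a M, x ∈ M1 := by
      intro x hx
      rcases mem_insert.mp hx with rfl | hx
      · exact haM1
      · exact mem_of_mem_erase (hMsub hx)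
    have hupd : ∀ b ∈ Good, Function.update Q a (insert a M) b = Q b := by
      intro b hb
      exact Function.update_of_ne (fun (h' : b = a) => haG (h' ▸ hb)) _ _
    have hMV' : ∀ x ∈ insert a M, ∀ b ∈ Good, x ∉ Q b := by
      intro x hx
      exact mem_V'.mp (mem_filter.mp (mem_filter.mp (hMM1 x hx)).1).1
    have hnew : Cl G I D (insert a Good) (Function.update Q a (insert a M)) := by
      refine ⟨?_, ?_, ?_, ?_, ?_, ?_⟩
      · intro x hx
        rcases mem_insert.mp hx with rfl | hx
        · exact haI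
        · exact h.sub hx
      · intro b hb
        rcases mem_insert.mp hb with rfl | hb
        · simp
        · rw [hupd b hb]; exact h.mem b hb
      · intro b hb
        rcases mem_insert.mp hb with rfl | hb
        · rw [Function.update_self]; exact hMcl'
        · rw [hupd b hb]; exact h.cl b hb
      · intro b hb
        rcases mem_insert.mp hb with rfl | hb
        · rw [Function.update_self]; exact hcon
        · rw [hupd b hb]; exact h.big b hb
      · intro b hb c hc hbc
        rcases mem_insert.mp hb with hba | hb'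
        · rcases mem_insert.mp hc with hca | hc'
          · exact absurd (hba.trans hca.symm) hbc
          · rw [hba, Function.update_self, hupd c hc', disjoint_left]
            intro x hx
            exact hMV' x hx c hc'
        · rcases mem_insert.mp hc with hca | hc'
          · rw [hca, Function.update_self, hupd b hb', disjoint_right]
            intro x hx
            exact hMV' x hx b hb'
          · rw [hupd b hb', hupd c hc']; exact h.disj b hb' c hc' hbc
      · intro b hb x hx c hc hadj
        obtain ⟨hcI, hcG⟩ := mem_sdiff.mp hc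
        have hcG' : c ∉ Good := fun h' => hcG (mem_insert_of_mem h')
        have hca : c ≠ a := fun h' => hcG (h' ▸ mem_insert_self _ _)
        rcases mem_insert.mp hb with rfl | hb
        · rw [Function.update_self] at hx
          have h1 := hhub1 x (hMM1 x hx)
          have h2 : c ∈ hub G I Good x := mem_hub.mpr ⟨mem_sdiff.mpr ⟨hcI, hcG'⟩, Or.inr hadj⟩
          rw [h1, mem_singleton] at h2
          exact hca h2
        · rw [hupd b hb] at hx
          exact h.nbad b hb x hx c (mem_sdiff.mpr ⟨hcI, hcG'⟩) hadj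
    have := hGmax _ _ hnew
    rw [card_insert_of_notMem haG] at this
    omega
  -- split the sum
  have hsplit : ∑ v ∈ N, (1 - kk G Good Q v) / ((hub G I Good v).card : ℝ) =
      ∑ v ∈ M1, (1 - kk G Good Q v) / ((hub G I Good v).card : ℝ) +
      ∑ v ∈ M2, (1 - kk G Good Q v) / ((hub G I Good v).card : ℝ) :=
    (sum_filter_add_sum_filter_not N _ _).symm
  have hS2 : ∑ v ∈ M2, (1 - kk G Good Q v) / ((hub G I Good v).card : ℝ) ≤ M2.card * (1 / 2) := by
    rw [← nsmul_eq_mul]
    refine sum_le_card_nsmul _ _ _ fun v hv => ?_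
    obtain ⟨hvN, hc⟩ := mem_filter.mp hv
    have h1 : 0 < (hub G I Good v).card := card_pos.mpr ⟨a, haN' v hvN⟩
    have h2 : (2 : ℝ) ≤ ((hub G I Good v).card : ℝ) := by
      exact_mod_cast (by omega : 2 ≤ (hub G I Good v).card)
    rw [div_le_iff₀ (by linarith)]
    have := kk_nonneg (G := G) Good Q v
    linarith
  have hS1 : ∑ v ∈ M1, (1 - kk G Good Q v) / ((hub G I Good v).card : ℝ) ≤
      (M1.card : ℝ) - 45 / 100 / 2 * (((M1.erase a) \ M).card : ℝ) := by
    have h1 : ∑ v ∈ M1, (1 - kk G Good Q v) / ((hub G I Good v).card : ℝ) =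
        ∑ v ∈ M1, (1 - kk G Good Q v) := by
      refine sum_congr rfl fun v hv => ?_
      rw [hhub1 v hv, card_singleton]; simp
    rw [h1, sum_sub_distrib, sum_const, nsmul_eq_mul, mul_one]
    have h2 : ∑ v ∈ (M1.erase a) \ M, kk G Good Q v ≤ ∑ v ∈ M1, kk G Good Q v :=
      sum_le_sum_of_subset_of_nonneg (sdiff_subset.trans (erase_subset _ _))
        (fun _ _ _ => kk_nonneg _ _ _)
    linarith
  have hcardM : (((M1.erase a) \ M).card : ℝ) = (M1.card : ℝ) - ((insert a M).card : ℝ) := by
    rw [card_sdiff_of_subset hMsub, card_erase_of_mem haM1, hMcard]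
    have h1 : M.card ≤ (M1.erase a).card := card_le_card hMsub
    rw [card_erase_of_mem haM1] at h1
    have h2 : 0 < M1.card := card_pos.mpr ⟨a, haM1⟩
    have h3 : M1.card - 1 - M.card = M1.card - (M.card + 1) := by omega
    rw [h3, Nat.cast_sub (by omega)]
  rw [hsplit]
  have e1 : (M1.card : ℝ) + M2.card ≤ D + 1 := by
    have : M1.card + M2.card ≤ D + 1 := by omega
    exact_mod_cast this
  have e2 : 20 * ((insert a M).card : ℝ) ≤ 19 * D := by exact_mod_cast hsmall.le
  have e3 : (0 : ℝ) ≤ M2.card := Nat.cast_nonneg _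
  rw [hcardM] at hS1
  linarith

/-- The main theorem for a maximum independent set. -/
theorem main_bound {D : ℕ} (hD : 200 ≤ D) (hdeg : ∀ v, G.degree v ≤ D) (I : Finset V)
    (hI : ∀ x ∈ I, ∀ y ∈ I, ¬ G.Adj x y)
    (hmax : ∀ J : Finset V, (∀ x ∈ J, ∀ y ∈ J, ¬ G.Adj x y) → J.card ≤ I.card)
    (C : ℝ) (hC : 99 / 100 * (D : ℝ) ≤ C)
    (hcod : ∀ u v : V, u ≠ v →
      (((univ.filter (fun x => G.Adj u x ∧ G.Adj v x)).card : ℕ) : ℝ) ≤ C) :
    (Fintype.card V : ℝ) ≤ (C + 2) * I.card := by
  classical
  obtain ⟨Good, Q, h, hGmax⟩ := exists_max_Cl G I D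
  have hbig : ∀ b ∈ Good, 2 ≤ (Q b).card := by
    intro b hb
    have := h.big b hb
    omega
  have hdisjV' : ∀ b ∈ Good, Disjoint (V' Good Q) (Q b) := by
    intro b hb
    rw [disjoint_left]
    intro v hv
    exact mem_V'.mp hv b hb
  -- cliques
  have hcl : ∑ b ∈ Good, (((Q b).card : ℝ) + ∑ v ∈ V' Good Q, w G Q b v) ≤
      Good.card * (C + 2) := by
    rw [← nsmul_eq_mul]
    exact sum_le_card_nsmul _ _ _ fun b hb =>
      cluster_sum Q b C hcod (h.cl b hb) (hbig b hb) _ (hdisjV' b hb)
  -- total number of vertices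
  have htot : (Fintype.card V : ℝ) = ∑ b ∈ Good, ((Q b).card : ℝ) + ((V' Good Q).card : ℝ) := by
    have h1 : Good.biUnion Q ∪ V' Good Q = univ := by
      ext v
      simp only [mem_union, mem_biUnion, mem_univ, iff_true]
      by_cases hv : ∃ b ∈ Good, v ∈ Q b
      · exact Or.inl hv
      · push Not at hv
        exact Or.inr (mem_V'.mpr hv)
    have h2 : Disjoint (Good.biUnion Q) (V' Good Q) := by
      rw [disjoint_left]
      intro v hv hv'
      obtain ⟨b, hb, hvb⟩ := mem_biUnion.mp hv
      exact mem_V'.mp hv' b hb hvb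
    have h3 : (Good.biUnion Q).card = ∑ b ∈ Good, (Q b).card :=
      card_biUnion (fun b hb c hc hbc => h.disj b hb c hc hbc)
    have h4 : Fintype.card V = (Good.biUnion Q).card + (V' Good Q).card := by
      rw [← card_union_of_disjoint h2, h1, card_univ]
    rw [h4, h3]; push_cast; ring
  -- V' split
  have hV' : ((V' Good Q).card : ℝ) ≤ ∑ v ∈ V' Good Q, (1 - kk G Good Q v) +
      ∑ v ∈ V' Good Q, ∑ b ∈ Good, w G Q b v := by
    rw [← sum_add_distrib, card_eq_sum_ones, Nat.cast_sum]
    refine sum_le_sum fun v _ => ?_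
    have := kk_le_sum (G := G) Good Q v
    push_cast
    linarith
  have hcomm : ∑ v ∈ V' Good Q, ∑ b ∈ Good, w G Q b v =
      ∑ b ∈ Good, ∑ v ∈ V' Good Q, w G Q b v := sum_comm
  -- charges
  have hrho : ∀ v ∈ V' Good Q, (1 - kk G Good Q v) ≤
      ∑ a ∈ hub G I Good v, (1 - kk G Good Q v) / ((hub G I Good v).card : ℝ) := by
    intro v hv
    rcases (hub G I Good v).eq_empty_or_nonempty with he | hne
    · have h1 : v ∉ I \ Good := fun hvB => by
        have : v ∈ hub G I Good v := mem_hub.mpr ⟨hvB, Or.inl rfl⟩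
        rw [he] at this; simp at this
      have h2 : ∀ a ∈ I \ Good, ¬ G.Adj v a := fun a ha hadj => by
        have : a ∈ hub G I Good v := mem_hub.mpr ⟨ha, Or.inr hadj.symm⟩
        rw [he] at this; simp at this
      obtain ⟨b, hb, hbv⟩ := blocked (by omega) h hdeg hI hmax v (mem_V'.mp hv) h1 h2
      rw [kk_blocked hb (hbig b hb) hbv, he]
      simp
    · rw [sum_const, nsmul_eq_mul]
      have hpos : (0 : ℝ) < ((hub G I Good v).card : ℝ) := by exact_mod_cast card_pos.mpr hne
      rw [mul_div_cancel₀ _ hpos.ne']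
  have hcharge : ∑ v ∈ V' Good Q, (1 - kk G Good Q v) ≤ (I \ Good).card * (C + 2) := by
    calc ∑ v ∈ V' Good Q, (1 - kk G Good Q v) ≤
        ∑ v ∈ V' Good Q, ∑ a ∈ hub G I Good v,
          (1 - kk G Good Q v) / ((hub G I Good v).card : ℝ) := sum_le_sum hrho
      _ = ∑ v ∈ V' Good Q, ∑ a ∈ I \ Good, if (a = v ∨ G.Adj a v) then
          (1 - kk G Good Q v) / ((hub G I Good v).card : ℝ) else 0 := by
          refine sum_congr rfl fun v _ => ?_
          unfold hub
          rw [sum_filter]
      _ = ∑ a ∈ I \ Good, ∑ v ∈ (V' Good Q).filter (fun v => a = v ∨ G.Adj a v),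
          (1 - kk G Good Q v) / ((hub G I Good v).card : ℝ) := by
          rw [sum_comm]
          refine sum_congr rfl fun a _ => ?_
          rw [sum_filter]
      _ ≤ (I \ Good).card * (C + 2) := by
          rw [← nsmul_eq_mul]
          exact sum_le_card_nsmul _ _ _ fun a ha =>
            charge_le hD h hGmax hdeg hI hmax C hC a ha
  have hcardI : ((I \ Good).card : ℝ) + Good.card = I.card := by
    have : (I \ Good).card + Good.card = I.card := by
      rw [card_sdiff_of_subset h.sub]
      have := card_le_card h.sub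
      omega
    exact_mod_cast this
  rw [sum_add_distrib] at hcl
  rw [hcomm] at hV'
  rw [htot, ← hcardI]
  nlinarith [hcl, hV', hcharge]

end Pool.Agent.Helper45.Vu
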