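import Mathlib
import Pool.Agent.Helper45.Vu.Final

set_option autoImplicit false

namespace Pool.Agent.Helper45.Vu.DenseRange

open Finset

/-- For `D ≥ 200`, a finite graph with all degrees at most `D` in which any two distinct vertices
have at most `C` common neighbours, where `C ≥ 0.99 D`, has at most `(C + 2) α` vertices. -/
theorem result {V : Type*} [Fintype V] [DecidableEq V] (G : SimpleGraph V) [DecidableRel G.Adj]
    (D : ℕ) (C : ℝ) (hD : 200 ≤ D) (hdeg : ∀ v : V, G.degree v ≤ D)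
    (hC : 99 / 100 * (D : ℝ) ≤ C)
    (hcod : ∀ u v : V, u ≠ v →
      (((univ.filter (fun w => G.Adj u w ∧ G.Adj v w)).card : ℕ) : ℝ) ≤ C) :
    (Fintype.card V : ℝ) ≤ (C + 2) * (G.indepNum : ℝ) := by
  obtain ⟨I, hI⟩ := G.exists_isNIndepSet_indepNum
  rw [SimpleGraph.isNIndepSet_iff] at hI
  have hind : ∀ x ∈ I, ∀ y ∈ I, ¬ G.Adj x y := by
    intro x hx y hy hadj
    exact hI.1 (mem_coe.mpr hx) (mem_coe.mpr hy) hadj.ne hadj
  rw [← hI.2]
  refine Pool.Agent.Helper45.Vu.main_bound hD hdeg I hind ?_ C hC hcod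
  intro J hJ
  rw [hI.2]
  refine SimpleGraph.IsIndepSet.card_le_indepNum ?_
  intro x hx y hy _
  exact hJ x (mem_coe.mp hx) y (mem_coe.mp hy)

end Pool.Agent.Helper45.Vu.DenseRange
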