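import Mathlib

set_option autoImplicit false

/-!
Haxell's theorem on independent transversals, in the form: if every nonempty set `S` of parts
satisfies `2 (|S| - 1) D < ∑_{i ∈ S} |P i|` and all vertices of the parts have degree at most `D`
(inside the union of the parts) then there is an independent transversal.
-/

namespace Pool.Agent.Helper45.Vu

open Finset

variable {V ι : Type*} [DecidableEq V] [DecidableEq ι]

section
variable (H : SimpleGraph V) [DecidableRel H.Adj] (P : ι → Finset V)

/-- independent transversal of the parts in `S` -/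
def IsIT (S : Finset ι) (f : ι → V) : Prop :=
  (∀ i ∈ S, f i ∈ P i) ∧ ∀ i ∈ S, ∀ j ∈ S, i ≠ j → ¬ H.Adj (f i) (f j)

/-- indices of parts whose chosen vertex is adjacent to `x` -/
def Nf (S : Finset ι) (f : ι → V) (x : V) : Finset ι := S.filter (fun i => H.Adj x (f i))

/-- indices of parts whose chosen vertex is adjacent to an element of the list -/
def Wf (S : Finset ι) (f : ι → V) (xs : List V) : Finset ι :=
  S.filter (fun i => ∃ x ∈ xs, H.Adj x (f i))

/-- the recursive invariant of Haxell's argument -/
def Good (m : ι) (S : Finset ι) (f : ι → V) : List V → Prop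
  | [] => IsIT H P S f
  | x :: xs => Good m S f xs ∧ x ∈ (insert m (Wf H S f xs)).biUnion P ∧
      (∀ y ∈ xs, ¬ H.Adj x y) ∧ (∀ i ∈ Wf H S f xs, ¬ H.Adj x (f i)) ∧ (Nf H S f x).Nonempty ∧
      ∀ f' : ι → V, IsIT H P S f' → (∀ i ∈ Wf H S f xs, f' i = f i) →
        Wf H S f' xs = Wf H S f xs → (Nf H S f x).card ≤ (Nf H S f' x).card

end

variable {H : SimpleGraph V} [DecidableRel H.Adj] {P : ι → Finset V}

lemma mem_Wf {S : Finset ι} {f : ι → V} {xs : List V} {i : ι} :
    i ∈ Wf H S f xs ↔ i ∈ S ∧ ∃ x ∈ xs, H.Adj x (f i) := by unfold Wf; simp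

lemma mem_Nf {S : Finset ι} {f : ι → V} {x : V} {i : ι} :
    i ∈ Nf H S f x ↔ i ∈ S ∧ H.Adj x (f i) := by unfold Nf; simp

lemma Wf_cons (S : Finset ι) (f : ι → V) (x : V) (xs : List V) :
    Wf H S f (x :: xs) = Nf H S f x ∪ Wf H S f xs := by
  ext i
  rw [mem_union, mem_Wf, mem_Wf, mem_Nf]
  constructor
  · rintro ⟨hi, y, hy, hadj⟩
    rcases List.mem_cons.mp hy with rfl | hy
    · exact Or.inl ⟨hi, hadj⟩
    · exact Or.inr ⟨hi, y, hy, hadj⟩
  · rintro (⟨hi, hadj⟩ | ⟨hi, y, hy, hadj⟩)
    · exact ⟨hi, x, List.mem_cons_self, hadj⟩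
    · exact ⟨hi, y, List.mem_cons_of_mem _ hy, hadj⟩

lemma Good.isIT {m : ι} {S : Finset ι} {f : ι → V} {xs : List V} (h : Good H P m S f xs) :
    IsIT H P S f := by
  induction xs with
  | nil => exact h
  | cons x xs ih => exact ih h.1

lemma Good.length_le {m : ι} {S : Finset ι} {f : ι → V} {xs : List V}
    (h : Good H P m S f xs) : xs.length ≤ (Wf H S f xs).card := by
  induction xs with
  | nil => simp
  | cons x xs ih =>
    obtain ⟨h1, _, _, h4, h5, _⟩ := h
    have hd : Disjoint (Nf H S f x) (Wf H S f xs) := by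
      rw [disjoint_left]
      intro i hi hi'
      exact h4 i hi' (mem_Nf.mp hi).2
    rw [Wf_cons, card_union_of_disjoint hd, List.length_cons]
    have := ih h1
    have h6 := card_pos.mpr h5
    omega

/-- `f'` agrees with `f` on the relevant indices. -/
lemma Nf_congr {S : Finset ι} {f f' : ι → V} {xs : List V}
    (h1 : ∀ i ∈ Wf H S f xs, f' i = f i) (h2 : Wf H S f' xs = Wf H S f xs) :
    ∀ x ∈ xs, Nf H S f' x = Nf H S f x := by
  intro x hx
  ext i
  rw [mem_Nf, mem_Nf]
  constructor
  · rintro ⟨hi, hadj⟩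
    have : i ∈ Wf H S f' xs := mem_Wf.mpr ⟨hi, x, hx, hadj⟩
    rw [h2] at this
    rw [h1 i this] at hadj
    exact ⟨hi, hadj⟩
  · rintro ⟨hi, hadj⟩
    have : i ∈ Wf H S f xs := mem_Wf.mpr ⟨hi, x, hx, hadj⟩
    rw [h1 i this]
    exact ⟨hi, hadj⟩

lemma Wf_congr_tail {S : Finset ι} {f f' : ι → V} {x : V} {xs : List V}
    (h1 : ∀ i ∈ Wf H S f (x :: xs), f' i = f i)
    (h2 : Wf H S f' (x :: xs) = Wf H S f (x :: xs)) :
    (∀ i ∈ Wf H S f xs, f' i = f i) ∧ Wf H S f' xs = Wf H S f xs := by
  have h3 := Nf_congr h1 h2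
  refine ⟨fun i hi => h1 i (by rw [Wf_cons]; exact mem_union_right _ hi), ?_⟩
  ext i
  rw [mem_Wf, mem_Wf]
  constructor
  · rintro ⟨hi, y, hy, hadj⟩
    have : i ∈ Nf H S f' y := mem_Nf.mpr ⟨hi, hadj⟩
    rw [h3 y (List.mem_cons_of_mem _ hy)] at this
    exact ⟨hi, y, hy, (mem_Nf.mp this).2⟩
  · rintro ⟨hi, y, hy, hadj⟩
    have : i ∈ Nf H S f y := mem_Nf.mpr ⟨hi, hadj⟩
    rw [← h3 y (List.mem_cons_of_mem _ hy)] at this
    exact ⟨hi, y, hy, (mem_Nf.mp this).2⟩

lemma Good.congr {m : ι} {S : Finset ι} {f f' : ι → V} {xs : List V} (hf' : IsIT H P S f')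
    (h : Good H P m S f xs)
    (h1 : ∀ i ∈ Wf H S f xs, f' i = f i) (h2 : Wf H S f' xs = Wf H S f xs) :
    Good H P m S f' xs := by
  induction xs with
  | nil => exact hf'
  | cons x xs ih =>
    obtain ⟨g1, g2, g3, g4, g5, g6⟩ := h
    obtain ⟨h3, h4⟩ := Wf_congr_tail h1 h2
    have hN : Nf H S f' x = Nf H S f x := Nf_congr h1 h2 x List.mem_cons_self
    refine ⟨ih g1 h3 h4, by rw [h4]; exact g2, g3, ?_, by rw [hN]; exact g5, ?_⟩
    · intro i hi
      rw [h4] at hi
      rw [h3 i hi]
      exact g4 i hi
    · intro f'' hf'' hh1 hh2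
      rw [hN]
      refine g6 f'' hf'' ?_ (hh2.trans h4)
      intro i hi
      have hi' : i ∈ Wf H S f' xs := by rw [h4]; exact hi
      rw [hh1 i hi', h3 i hi]

/-- the exchange contradiction -/
lemma Good.no_exchange {m : ι} {S : Finset ι} {f : ι → V} {xs : List V}
    (h : Good H P m S f xs) {i0 : ι} (hi0 : i0 ∈ Wf H S f xs) {x : V} (hx : x ∈ P i0)
    (hxs : ∀ y ∈ xs, ¬ H.Adj x y) (hxf : ∀ j ∈ S, ¬ H.Adj x (f j)) : False := by
  induction xs with
  | nil =>
    obtain ⟨_, y, hy, _⟩ := mem_Wf.mp hi0
    simp at hy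
  | cons y ys ih =>
    obtain ⟨g1, g2, g3, g4, g5, g6⟩ := h
    by_cases hi : i0 ∈ Wf H S f ys
    · exact ih g1 hi (fun z hz => hxs z (List.mem_cons_of_mem _ hz))
    · have hi0S : i0 ∈ S := (mem_Wf.mp hi0).1
      have hy : i0 ∈ Nf H S f y := by
        rw [Wf_cons] at hi0
        exact (mem_union.mp hi0).resolve_right hi
      have hIT := g1.isIT
      set g : ι → V := Function.update f i0 x with hg
      have hgi : g i0 = x := Function.update_self _ _ _
      have hgj : ∀ j, j ≠ i0 → g j = f j := fun j hj => Function.update_of_ne hj _ _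
      have hgIT : IsIT H P S g := by
        refine ⟨fun j hj => ?_, fun j hj k hk hjk => ?_⟩
        · by_cases hji : j = i0
          · rw [hji, hgi]; exact hx
          · rw [hgj j hji]; exact hIT.1 j hj
        · by_cases hji : j = i0
          · have hki : k ≠ i0 := fun h => hjk (hji.trans h.symm)
            rw [hji, hgi, hgj k hki]
            exact hxf k hk
          · by_cases hki : k = i0
            · rw [hki, hgi, hgj j hji]
              intro hadj
              exact hxf j hj hadj.symm
            · rw [hgj j hji, hgj k hki]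
              exact hIT.2 j hj k hk hjk
      have hagree : ∀ i ∈ Wf H S f ys, g i = f i := by
        intro i hi'
        exact hgj i (fun h => hi (h ▸ hi'))
      have hW : Wf H S g ys = Wf H S f ys := by
        ext i
        rw [mem_Wf, mem_Wf]
        by_cases hii : i = i0
        · constructor
          · rintro ⟨_, z, hz, hadj⟩
            rw [hii, hgi] at hadj
            exact absurd hadj.symm (hxs z (List.mem_cons_of_mem _ hz))
          · rintro ⟨hiS, z, hz, hadj⟩
            exact absurd (mem_Wf.mpr ⟨hi0S, z, hz, hii ▸ hadj⟩) hi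
        · rw [hgj i hii]
      have h1 := g6 g hgIT hagree hW
      have h2 : Nf H S g y ⊆ (Nf H S f y).erase i0 := by
        intro i hi'
        obtain ⟨hiS, hadj⟩ := mem_Nf.mp hi'
        by_cases hii : i = i0
        · rw [hii, hgi] at hadj
          exact absurd hadj.symm (hxs y List.mem_cons_self)
        · rw [hgj i hii] at hadj
          exact mem_erase.mpr ⟨hii, mem_Nf.mpr ⟨hiS, hadj⟩⟩
      have h3 := card_le_card h2
      have h4 := card_erase_lt_of_mem hy
      omega

lemma Good.mem_biUnion {m : ι} {S : Finset ι} {f : ι → V} {xs : List V}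
    (h : Good H P m S f xs) : ∀ x ∈ xs, ∃ i ∈ insert m S, x ∈ P i := by
  induction xs with
  | nil => simp
  | cons y ys ih =>
    intro x hx
    rcases List.mem_cons.mp hx with rfl | hx
    · obtain ⟨i, hi, hxi⟩ := Finset.mem_biUnion.mp h.2.1
      refine ⟨i, ?_, hxi⟩
      rcases mem_insert.mp hi with rfl | hi
      · exact mem_insert_self _ _
      · exact mem_insert_of_mem (mem_Wf.mp hi).1
    · exact ih h.1 x hx

/-- Haxell's theorem. -/
theorem haxell (H : SimpleGraph V) [DecidableRel H.Adj] (P : ι → Finset V) (D : ℕ) (v0 : V) :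
    ∀ n : ℕ, ∀ S0 : Finset ι, S0.card = n →
      (∀ i ∈ S0, ∀ j ∈ S0, i ≠ j → Disjoint (P i) (P j)) →
      (∀ i ∈ S0, ∀ x ∈ P i, ((S0.biUnion P).filter (fun y => H.Adj x y)).card ≤ D) →
      (∀ S : Finset ι, S ⊆ S0 → S.Nonempty → 2 * (S.card - 1) * D < ∑ i ∈ S, (P i).card) →
      ∃ f : ι → V, IsIT H P S0 f := by
  classical
  intro n
  induction n with
  | zero =>
    intro S0 hS0 _ _ _
    rw [card_eq_zero] at hS0
    subst hS0
    exact ⟨fun _ => v0, by simp [IsIT]⟩
  | succ n ih =>
    intro S0 hS0 hdisj hdeg hsum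
    obtain ⟨m, hm⟩ : S0.Nonempty := card_pos.mp (by omega)
    set S := S0.erase m with hS
    have hSS : S ⊆ S0 := erase_subset _ _
    have hmS : m ∉ S := notMem_erase _ _
    have hins : insert m S = S0 := insert_erase hm
    have hScard : S.card = n := by rw [hS, card_erase_of_mem hm]; omega
    obtain ⟨f0, hf0⟩ := ih S hScard (fun i hi j hj => hdisj i (hSS hi) j (hSS hj))
      (fun i hi x hx => (card_le_card (filter_subset_filter _
        (biUnion_subset_biUnion_of_subset_left _ hSS))).trans (hdeg i (hSS hi) x hx))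
      (fun T hT hne => hsum T (hT.trans hSS) hne)
    by_contra hno
    -- extend forever
    have key : ∀ k : ℕ, ∃ xs : List V, ∃ f : ι → V, xs.length = k ∧ Good H P m S f xs := by
      intro k
      induction k with
      | zero => exact ⟨[], f0, rfl, hf0⟩
      | succ k ihk =>
        obtain ⟨xs, f, hlen, hgood⟩ := ihk
        set W := Wf H S f xs with hW
        have hWS : W ⊆ S := filter_subset _ _
        have hmW : m ∉ W := fun h => hmS (hWS h)
        have hWS0 : insert m W ⊆ S0 := by
          rw [← hins]; exact insert_subset_insert _ hWS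
        -- an undominated vertex
        obtain ⟨x, hxU, hxxs, hxW⟩ : ∃ x ∈ (insert m W).biUnion P, (∀ y ∈ xs, ¬ H.Adj x y) ∧
            (∀ i ∈ W, ¬ H.Adj x (f i)) := by
          by_contra hcon
          push Not at hcon
          have hcover : (insert m W).biUnion P ⊆
              (xs.toFinset.biUnion (fun y => (S0.biUnion P).filter (fun z => H.Adj y z))) ∪
              (W.biUnion (fun i => (S0.biUnion P).filter (fun z => H.Adj (f i) z))) := by
            intro x hx
            have hx0 : x ∈ S0.biUnion P := biUnion_subset_biUnion_of_subset_left _ hWS0 hx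
            by_cases hxs : ∀ y ∈ xs, ¬ H.Adj x y
            · obtain ⟨i, hi, hadj⟩ := hcon x hx hxs
              exact mem_union_right _ (Finset.mem_biUnion.mpr ⟨i, hi, mem_filter.mpr ⟨hx0, hadj.symm⟩⟩)
            · push Not at hxs
              obtain ⟨y, hy, hadj⟩ := hxs
              exact mem_union_left _ (Finset.mem_biUnion.mpr ⟨y, List.mem_toFinset.mpr hy,
                mem_filter.mpr ⟨hx0, hadj.symm⟩⟩)
          have h1 : (xs.toFinset.biUnion
              (fun y => (S0.biUnion P).filter (fun z => H.Adj y z))).card ≤ xs.length * D := by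
            refine card_biUnion_le.trans ?_
            calc _ ≤ ∑ y ∈ xs.toFinset, D := by
                  refine sum_le_sum fun y hy => ?_
                  obtain ⟨i, hi, hyi⟩ := hgood.mem_biUnion y (List.mem_toFinset.mp hy)
                  rw [hins] at hi
                  exact hdeg i hi y hyi
              _ = xs.toFinset.card * D := by rw [sum_const, smul_eq_mul]
              _ ≤ xs.length * D := Nat.mul_le_mul_right _ (List.toFinset_card_le xs)
          have h2 : (W.biUnion (fun i => (S0.biUnion P).filter (fun z => H.Adj (f i) z))).card ≤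
              W.card * D := by
            refine card_biUnion_le.trans ?_
            calc _ ≤ ∑ i ∈ W, D := by
                  refine sum_le_sum fun i hi => ?_
                  exact hdeg i (hSS (hWS hi)) (f i) (hgood.isIT.1 i (hWS hi))
              _ = W.card * D := by rw [sum_const, smul_eq_mul]
          have h3 : ((insert m W).biUnion P).card = ∑ i ∈ insert m W, (P i).card :=
            card_biUnion (fun i hi j hj hij => hdisj i (hWS0 hi) j (hWS0 hj) hij)
          have h4 := hsum (insert m W) hWS0 (insert_nonempty _ _)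
          rw [card_insert_of_notMem hmW] at h4
          have h5 := (card_le_card hcover).trans (card_union_le _ _)
          have h6 : xs.length ≤ W.card := hgood.length_le
          have h7 : xs.length * D ≤ W.card * D := Nat.mul_le_mul_right _ h6
          have h8 : 2 * (W.card + 1 - 1) * D = W.card * D + W.card * D := by
            rw [Nat.add_sub_cancel]; ring
          omega
        -- minimise the number of neighbours of x
        obtain ⟨f1, ⟨hf1a, hf1b, hf1c⟩, hf1min⟩ : ∃ f1 : ι → V,
            (IsIT H P S f1 ∧ (∀ i ∈ W, f1 i = f i) ∧ Wf H S f1 xs = W) ∧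
            ∀ f2 : ι → V, (IsIT H P S f2 ∧ (∀ i ∈ W, f2 i = f i) ∧ Wf H S f2 xs = W) →
              (Nf H S f1 x).card ≤ (Nf H S f2 x).card := by
          set A : Set ℕ := {k | ∃ f1 : ι → V, (IsIT H P S f1 ∧ (∀ i ∈ W, f1 i = f i) ∧
            Wf H S f1 xs = W) ∧ (Nf H S f1 x).card = k} with hA
          have hAne : A.Nonempty := ⟨_, f, ⟨hgood.isIT, fun _ _ => rfl, rfl⟩, rfl⟩
          obtain ⟨f1, h1, h2⟩ := Nat.sInf_mem hAne
          refine ⟨f1, h1, fun f2 h3 => ?_⟩
          rw [h2]
          exact Nat.sInf_le ⟨f2, h3, rfl⟩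
        have hgood1 : Good H P m S f1 xs := hgood.congr hf1a hf1b hf1c
        refine ⟨x :: xs, f1, by simp [hlen], hgood1, ?_, hxxs, ?_, ?_, ?_⟩
        · rw [hf1c]; exact hxU
        · intro i hi
          rw [hf1c] at hi
          rw [hf1b i hi]
          exact hxW i hi
        · -- nonempty
          by_contra hemp
          rw [not_nonempty_iff_eq_empty] at hemp
          have hxf : ∀ j ∈ S, ¬ H.Adj x (f1 j) := by
            intro j hj hadj
            have : j ∈ Nf H S f1 x := mem_Nf.mpr ⟨hj, hadj⟩
            rw [hemp] at this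
            simp at this
          obtain ⟨i0, hi0, hxi0⟩ := Finset.mem_biUnion.mp hxU
          rcases mem_insert.mp hi0 with hi0m | hi0W
          · -- full transversal
            apply hno
            rw [hi0m] at hxi0
            refine ⟨Function.update f1 m x, fun j hj => ?_, fun j hj k hk hjk => ?_⟩
            · by_cases hjm : j = m
              · rw [hjm, Function.update_self]; exact hxi0
              · rw [Function.update_of_ne hjm]
                exact hf1a.1 j (mem_erase.mpr ⟨hjm, hj⟩)
            · by_cases hjm : j = m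
              · have hkm : k ≠ m := fun h => hjk (hjm.trans h.symm)
                rw [hjm, Function.update_self, Function.update_of_ne hkm]
                exact hxf k (mem_erase.mpr ⟨hkm, hk⟩)
              · by_cases hkm : k = m
                · rw [hkm, Function.update_self, Function.update_of_ne hjm]
                  intro hadj
                  exact hxf j (mem_erase.mpr ⟨hjm, hj⟩) hadj.symm
                · rw [Function.update_of_ne hjm, Function.update_of_ne hkm]
                  exact hf1a.2 j (mem_erase.mpr ⟨hjm, hj⟩) k (mem_erase.mpr ⟨hkm, hk⟩) hjk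
          · exact hgood1.no_exchange (by rw [hf1c]; exact hi0W) hxi0 hxxs hxf
        · intro f2 hf2 hag hWeq
          rw [hf1c] at hag hWeq
          refine hf1min f2 ⟨hf2, fun i hi => ?_, hWeq⟩
          rw [hag i hi, hf1b i hi]
    obtain ⟨xs, f, hlen, hgood⟩ := key (S.card + 1)
    have h1 := hgood.length_le
    have h2 : (Wf H S f xs).card ≤ S.card := card_le_card (filter_subset _ _)
    omega

end Pool.Agent.Helper45.Vu
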